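import Pool.Agent.Helper38.EQ.Fml

/-!
# The clauses which generate the factorials

Auxiliary file for the result `OmittedSeries` of the page MP_db9079_lc.
-/

set_option autoImplicit false

namespace Pool.Agent.Helper38.EQ

open Pool.Agent.Y924.EL Pool.Agent.Y924.UF
open Function

/-- The clauses. The intended relation consists of all `(t ^ (-n), t ^ (n !), t ^ (-j),
t ^ (j n !), s)`, where `1 ≤ n` and `s` is the sum of the `t ^ (k !)` with `1 ≤ k ≤ n`, and `c` is the
infinite sum. -/
def Cl {K : Type*} [Add K] [Mul K] [One K] (O : Set K) (t c : K)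
    (R : K → K → K → K → K → Prop) : Prop :=
  (∃ i x, i = 1 ∧ x * t = i ∧ R x t i i t) ∧
  (∀ x y u z s u' z', u * t = u' → z * y = z' → R x y u' z s → R x y u z' s) ∧
  (∀ x y u z s i r, u * t = x → s + z = r → i = 1 → R x y u z s → R u z i i r) ∧
  (∀ x y u z s : K, K → K → u * t = x → R x y u z s → ∃ o q, o ∈ O ∧ z * o = q ∧ s + q = c)

/-- the formula which says that the clauses are true; `t` is the variable `12`, `c` is the variable
`13` -/
def fcl (q : ℕ) (φ : Fm) : Fm :=
  .and (exs [5, 6] (.and (.one 5) (.and (.mul 6 12 5) (ins φ 6 12 5 5 12))))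
    (.and (alls [5, 6, 7, 8, 9, 10, 11] (imp (.mul 7 12 10) (imp (.mul 8 6 11)
      (imp (ins φ 5 6 10 8 9) (ins φ 5 6 7 11 9)))))
      (.and (alls [5, 6, 7, 8, 9, 10, 11] (imp (.mul 7 12 5) (imp (.add 9 8 11)
        (imp (.one 10) (imp (ins φ 5 6 7 8 9) (ins φ 7 8 10 10 11))))))
        (alls [5, 6, 7, 8, 9, 10, 11] (imp (.mul 7 12 5) (imp (ins φ 5 6 7 8 9)
          (exs [10, 11] (.and (vlf q) (.and (.mul 8 10 11) (.add 9 11 13)))))))))

section

variable {K : Type} [CommRing K] (O : Set K)

theorem sat_all7 (χ : Fm) (v : ℕ → K) (Q : K → K → K → K → K → K → K → Prop)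
    (h : ∀ v' : ℕ → K, (∀ i, 12 ≤ i → v' i = v i) →
      (Sat O χ v' ↔ Q (v' 5) (v' 6) (v' 7) (v' 8) (v' 9) (v' 10) (v' 11))) :
    Sat O (alls [5, 6, 7, 8, 9, 10, 11] χ) v ↔ ∀ a b c d e f g, Q a b c d e f g := by
  rw [sat_alls]
  constructor
  · intro h1 a b c d e f g
    let v' : ℕ → K := fun i => if i = 5 then a else if i = 6 then b else if i = 7 then c else
      if i = 8 then d else if i = 9 then e else if i = 10 then f else if i = 11 then g else v i
    have h2 : ∀ i, i ∉ [5, 6, 7, 8, 9, 10, 11] → v' i = v i := by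
      intro i hi
      simp only [List.mem_cons, List.not_mem_nil, or_false, not_or] at hi
      obtain ⟨h5, h6, h7, h8, h9, h10, h11⟩ := hi
      simp only [v']
      rw [if_neg h5, if_neg h6, if_neg h7, if_neg h8, if_neg h9, if_neg h10, if_neg h11]
    exact (h v' fun i hi => h2 i (by
      simp only [List.mem_cons, List.not_mem_nil, or_false]
      omega)).1 (h1 v' h2)
  · intro h1 v' h2
    refine (h v' fun i hi => h2 i ?_).2 (h1 _ _ _ _ _ _ _)
    simp only [List.mem_cons, List.not_mem_nil, or_false]
    omega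

theorem sat_fcl (q : ℕ) (φ : Fm) (v : ℕ → K) : Sat O (fcl q φ) v ↔
    Cl {x | OT q (v 12) x} (v 12) (v 13) (Rel5 O φ fun j => v (j + 20)) := by
  have hp : ∀ v' : ℕ → K, (∀ i, 12 ≤ i → v' i = v i) →
      (fun j => v' (j + 20)) = fun j => v (j + 20) := fun v' h => funext fun j => h _ (by omega)
  have hi : ∀ (v' : ℕ → K) (_ : ∀ i, 12 ≤ i → v' i = v i) {a b c d e : ℕ} (_ : 5 ≤ a) (_ : 5 ≤ b)
      (_ : 5 ≤ c) (_ : 5 ≤ d) (_ : 5 ≤ e), (Sat O (ins φ a b c d e) v' ↔
        Rel5 O φ (fun j => v (j + 20)) (v' a) (v' b) (v' c) (v' d) (v' e)) := by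
    intro v' h a b c d e ha hb hc hd he
    rw [sat_ins O φ v' ha hb hc hd he, hp v' h]
  rw [fcl, Cl]
  simp only [Sat]
  refine and_congr ?_ (and_congr ?_ (and_congr ?_ ?_))
  · rw [sat_exs]
    constructor
    · rintro ⟨v', h1, h2⟩
      simp only [Sat] at h2
      obtain ⟨h2, h3, h5⟩ := h2
      have h4 : ∀ i, 12 ≤ i → v' i = v i := fun i hi' => h1 i (by
        simp only [List.mem_cons, List.not_mem_nil, or_false]
        omega)
      rw [h4 12 le_rfl] at h3
      rw [hi v' h4 (by omega) (by omega) (by omega) (by omega) (by omega), h4 12 le_rfl] at h5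
      exact ⟨_, _, h2, h3, h5⟩
    · rintro ⟨i, x, h1, h2, h3⟩
      let v' : ℕ → K := fun j => if j = 5 then i else if j = 6 then x else v j
      have h4 : ∀ j, j ≠ 5 → j ≠ 6 → v' j = v j := fun j hj hj' => by
        simp only [v', if_neg hj, if_neg hj']
      refine ⟨v', fun j hi' => ?_, ?_⟩
      · simp only [List.mem_cons, List.not_mem_nil, or_false, not_or] at hi'
        exact h4 j hi'.1 hi'.2
      · simp only [Sat]
        rw [hi v' (fun i hi' => h4 i (by omega) (by omega)) (by omega) (by omega) (by omega)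
          (by omega) (by omega), h4 12 (by omega) (by omega)]
        exact ⟨h1, h2, h3⟩
  · refine sat_all7 O _ v (fun x y u z s u' z' => u * v 12 = u' → z * y = z' →
      Rel5 O φ (fun j => v (j + 20)) x y u' z s → Rel5 O φ (fun j => v (j + 20)) x y u z' s)
      fun v' h => ?_
    rw [sat_imp, sat_imp, sat_imp, hi v' h (by omega) (by omega) (by omega) (by omega) (by omega),
      hi v' h (by omega) (by omega) (by omega) (by omega) (by omega)]
    simp only [Sat, h 12 le_rfl]
  · refine sat_all7 O _ v (fun x y u z s i r => u * v 12 = x → s + z = r → i = 1 →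
      Rel5 O φ (fun j => v (j + 20)) x y u z s → Rel5 O φ (fun j => v (j + 20)) u z i i r)
      fun v' h => ?_
    rw [sat_imp, sat_imp, sat_imp, sat_imp,
      hi v' h (by omega) (by omega) (by omega) (by omega) (by omega),
      hi v' h (by omega) (by omega) (by omega) (by omega) (by omega)]
    simp only [Sat, h 12 le_rfl]
  · refine sat_all7 O _ v (fun x y u z s _ _ => u * v 12 = x →
      Rel5 O φ (fun j => v (j + 20)) x y u z s →
        ∃ o r, o ∈ {x | OT q (v 12) x} ∧ z * o = r ∧ s + r = v 13)
      fun v' h => ?_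
    rw [sat_imp, sat_imp, hi v' h (by omega) (by omega) (by omega) (by omega) (by omega), sat_exs]
    simp only [Sat, h 12 le_rfl, sat_vlf]
    refine imp_congr_right fun _ => imp_congr_right fun _ => ?_
    constructor
    · rintro ⟨v'', h1, h2, h3, h4⟩
      have h5 : ∀ i, i ≠ 10 → i ≠ 11 → v'' i = v' i := fun i h6 h7 => h1 i (by simp [h6, h7])
      rw [h5 12 (by omega) (by omega), h 12 le_rfl] at h2
      rw [h5 8 (by omega) (by omega)] at h3
      rw [h5 9 (by omega) (by omega), h5 13 (by omega) (by omega), h 13 (by omega)] at h4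
      exact ⟨_, _, h2, h3, h4⟩
    · rintro ⟨o, r, h2, h3, h4⟩
      let v'' : ℕ → K := fun i => if i = 10 then o else if i = 11 then r else v' i
      have h5 : ∀ i, i ≠ 10 → i ≠ 11 → v'' i = v' i := fun i h6 h7 => by
        simp only [v'', if_neg h6, if_neg h7]
      refine ⟨v'', fun i hi' => ?_, ?_, ?_, ?_⟩
      · simp only [List.mem_cons, List.not_mem_nil, or_false, not_or] at hi'
        exact h5 i hi'.1 hi'.2
      · rw [h5 12 (by omega) (by omega), h 12 le_rfl]
        exact h2
      · rw [h5 8 (by omega) (by omega)]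
        exact h3
      · rw [h5 9 (by omega) (by omega), h5 13 (by omega) (by omega), h 13 (by omega)]
        exact h4

/-- the formula which says that there are a relation, defined by `φ` with suitable parameters, and
an element `c` such that the clauses are true -/
def fex (q : ℕ) (φ : Fm) : Fm := exs (13 :: List.range' 25 (bd φ)) (fcl q φ)

theorem sat_fex (q : ℕ) (φ : Fm) (t : K) : Sat O (fex q φ) (fun _ => t) ↔
    ∃ (w : ℕ → K) (c : K), Cl {x | OT q t x} t c (Rel5 O φ w) := by
  rw [fex, sat_exs]
  constructor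
  · rintro ⟨v, h1, h2⟩
    rw [sat_fcl] at h2
    have h3 : v 12 = t := h1 12 (by simp [List.mem_range'_1])
    rw [h3] at h2
    exact ⟨_, _, h2⟩
  · rintro ⟨w, c, h⟩
    let v : ℕ → K := fun i => if i = 13 then c else if 25 ≤ i ∧ i < 25 + bd φ then w (i - 20) else t
    refine ⟨v, fun i hi => ?_, ?_⟩
    · simp only [List.mem_cons, List.mem_range'_1, not_or] at hi
      simp only [v]
      rw [if_neg hi.1, if_neg hi.2]
    · rw [sat_fcl]
      have h1 : v 12 = t := by simp [v]
      have h2 : v 13 = c := by simp [v]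
      have h3 : Rel5 O φ (fun j => v (j + 20)) = Rel5 O φ w := by
        funext x y u z s
        refine propext (sat_congr O φ _ _ fun i hi => ?_)
        by_cases h5 : 5 ≤ i
        · rw [if_neg (by omega), if_neg (by omega), if_neg (by omega), if_neg (by omega),
            if_neg (by omega), if_neg (by omega), if_neg (by omega), if_neg (by omega),
            if_neg (by omega), if_neg (by omega)]
          simp only [v]
          rw [if_neg (by omega), if_pos (by omega)]
          congr 1
        · interval_cases i <;> rfl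
      rw [h1, h2, h3]
      exact h

end

end Pool.Agent.Helper38.EQ
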