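import Pool.Graph.R_pool_sql_team_seeded_1e53cb71.Results.MP_db9079_lc.ProjectiveSets

/-!
# Closed sets of power series with prescribed numbers of residue classes

Auxiliary file for the result `CountingFunctions` of the page MP_db9079_lc.
-/

set_option autoImplicit false

namespace Pool.Agent.Helper38.EQ

open Pool.Agent.Helper14K9.PJ (Vle ClosedN Proj)
open Filter Topology

/-- the possible sequences of the numbers of residue classes modulo `t ^ n`, `n = 0, 1, ...`, of a
nonempty set of power series -/
def Admissible (p : ℕ) (a : ℕ → ℕ) : Prop := a 0 = 1 ∧ ∀ n, a n ≤ a (n + 1) ∧ a (n + 1) ≤ p * a n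

/-- the power series with the numbers `a n` as coefficients is a quotient of polynomials -/
def RationalSeries (a : ℕ → ℕ) : Prop :=
  ∃ Q R : Polynomial ℚ, Q ≠ 0 ∧
    (Q : PowerSeries ℚ) * PowerSeries.mk (fun n => (a n : ℚ)) = (R : PowerSeries ℚ)

section

variable {p : ℕ} [Fact p.Prime]

/-- all continuations of the polynomials in `A` by one more term -/
noncomputable def exts (A : Finset (Polynomial (ZMod p))) (n : ℕ) :
    Finset (Polynomial (ZMod p)) := by
  classical exact (A ×ˢ (Finset.univ : Finset (ZMod p))).image fun z =>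
    z.1 + Polynomial.C z.2 * Polynomial.X ^ n

theorem subset_exts (A : Finset (Polynomial (ZMod p))) (n : ℕ) : A ⊆ exts A n := by
  classical
  intro P hP
  rw [exts, Finset.mem_image]
  exact ⟨(P, 0), by simp [hP], by simp⟩

theorem card_exts {A : Finset (Polynomial (ZMod p))} {n : ℕ}
    (hA : ∀ P ∈ A, P.degree < n) : (exts A n).card = p * A.card := by
  classical
  rw [exts, Finset.card_image_of_injOn, Finset.card_product, Finset.card_univ, ZMod.card, mul_comm]
  rintro ⟨P, c⟩ h ⟨P', c'⟩ h' heq
  simp only [Finset.coe_product, Set.mem_prod, Finset.mem_coe] at h h'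
  simp only at heq
  have h1 : P.coeff n = 0 := Polynomial.coeff_eq_zero_of_degree_lt (hA P h.1)
  have h2 : P'.coeff n = 0 := Polynomial.coeff_eq_zero_of_degree_lt (hA P' h'.1)
  have h3 := congrArg (fun q : Polynomial (ZMod p) => q.coeff n) heq
  simp only [Polynomial.coeff_add, Polynomial.coeff_C_mul, Polynomial.coeff_X_pow, if_true,
    mul_one, h1, h2, zero_add] at h3
  subst h3
  have h4 : P = P' := add_right_cancel heq
  rw [h4]

theorem exists_levels {a : ℕ → ℕ} (ha : Admissible p a) :
    ∃ A : ℕ → Finset (Polynomial (ZMod p)), (∀ n, (A n).card = a n) ∧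
      (∀ n, ∀ P ∈ A n, P.degree < n) ∧ (∀ n, A n ⊆ A (n + 1)) ∧ ∀ n, A (n + 1) ⊆ exts (A n) n := by
  classical
  have step : ∀ (n : ℕ) (B : Finset (Polynomial (ZMod p))), B.card = a n →
      (∀ P ∈ B, P.degree < n) → ∃ C : Finset (Polynomial (ZMod p)), C.card = a (n + 1) ∧
        (∀ P ∈ C, P.degree < (n + 1 : ℕ)) ∧ B ⊆ C ∧ C ⊆ exts B n := by
    intro n B hB hd
    obtain ⟨C, h1, h2, h3⟩ := Finset.exists_subsuperset_card_eq (subset_exts B n)
      (n := a (n + 1)) (by rw [hB]; exact (ha.2 n).1)
      (by rw [card_exts hd, hB]; exact (ha.2 n).2)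
    refine ⟨C, h3, fun P hP => ?_, h1, h2⟩
    have h4 := h2 hP
    rw [exts, Finset.mem_image] at h4
    obtain ⟨⟨Q, c⟩, h5, rfl⟩ := h4
    have h6 : Q ∈ B := (Finset.mem_product.1 h5).1
    refine (Polynomial.degree_add_le _ _).trans_lt (max_lt ?_ ?_)
    · exact (hd Q h6).trans (by exact_mod_cast Nat.lt_succ_self n)
    · exact (Polynomial.degree_C_mul_X_pow_le n c).trans_lt (by exact_mod_cast Nat.lt_succ_self n)
  let F : (n : ℕ) → {B : Finset (Polynomial (ZMod p)) //
      B.card = a n ∧ ∀ P ∈ B, P.degree < n} := fun n => Nat.rec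
    ⟨{0}, by rw [Finset.card_singleton, ha.1], by
      intro P hP
      rw [Finset.mem_singleton] at hP
      rw [hP, Polynomial.degree_zero]
      exact WithBot.bot_lt_coe 0⟩
    (fun n B => ⟨(step n B.1 B.2.1 B.2.2).choose,
      (step n B.1 B.2.1 B.2.2).choose_spec.1, (step n B.1 B.2.1 B.2.2).choose_spec.2.1⟩) n
  exact ⟨fun n => (F n).1, fun n => (F n).2.1, fun n => (F n).2.2,
    fun n => (step n (F n).1 (F n).2.1 (F n).2.2).choose_spec.2.2.1,
    fun n => (step n (F n).1 (F n).2.1 (F n).2.2).choose_spec.2.2.2⟩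

/-- the power series with all truncations in the levels -/
def branches (A : ℕ → Finset (Polynomial (ZMod p))) : Set (PowerSeries (ZMod p)) :=
  {f | ∀ n, PowerSeries.trunc n f ∈ A n}

theorem trunc_branches {A : ℕ → Finset (Polynomial (ZMod p))}
    (h1 : ∀ n, ∀ P ∈ A n, P.degree < n) (h2 : ∀ n, A n ⊆ A (n + 1))
    (h3 : ∀ n, A (n + 1) ⊆ exts (A n) n) (n : ℕ) :
    PowerSeries.trunc n '' branches A = (A n : Set (Polynomial (ZMod p))) := by
  classical
  have hmono : ∀ m k, A m ⊆ A (m + k) := by
    intro m k
    induction k with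
    | zero => exact subset_rfl
    | succ k ih => exact ih.trans (h2 _)
  have htr : ∀ (m : ℕ) (P : Polynomial (ZMod p)), P.degree < m →
      PowerSeries.trunc m (P : PowerSeries (ZMod p)) = P := by
    intro m P hP
    ext i
    rw [PowerSeries.coeff_trunc, Polynomial.coeff_coe]
    split_ifs with hi
    · rfl
    · exact (Polynomial.coeff_eq_zero_of_degree_lt (hP.trans_le (by exact_mod_cast not_lt.1 hi))).symm
  have hdown : ∀ (m k : ℕ) (P : Polynomial (ZMod p)), P ∈ A (m + k) →
      PowerSeries.trunc m (P : PowerSeries (ZMod p)) ∈ A m := by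
    intro m k
    induction k with
    | zero =>
      intro P hP
      rw [htr m P (h1 m P hP)]
      exact hP
    | succ k ih =>
      intro P hP
      have h4 := h3 (m + k) hP
      rw [exts, Finset.mem_image] at h4
      obtain ⟨⟨Q, c⟩, h5, rfl⟩ := h4
      have h6 : Q ∈ A (m + k) := (Finset.mem_product.1 h5).1
      have h7 := ih Q h6
      have h8 : PowerSeries.trunc m ((Q + Polynomial.C c * Polynomial.X ^ (m + k) :
          Polynomial (ZMod p)) : PowerSeries (ZMod p)) =
          PowerSeries.trunc m (Q : PowerSeries (ZMod p)) := by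
        ext i
        rw [PowerSeries.coeff_trunc, PowerSeries.coeff_trunc, Polynomial.coeff_coe,
          Polynomial.coeff_coe]
        split_ifs with hi
        · rw [Polynomial.coeff_add, Polynomial.coeff_C_mul, Polynomial.coeff_X_pow,
            if_neg (by omega), mul_zero, add_zero]
        · rfl
      rw [h8]
      exact h7
  apply Set.eq_of_subset_of_subset
  · rintro _ ⟨f, hf, rfl⟩
    exact hf n
  · intro P hP
    refine ⟨(P : PowerSeries (ZMod p)), fun m => ?_, htr n P (h1 n P hP)⟩
    rcases le_total n m with h | h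
    · obtain ⟨k, rfl⟩ := Nat.exists_eq_add_of_le h
      have h4 := hmono n k hP
      rw [htr _ P (h1 _ P h4)]
      exact h4
    · obtain ⟨k, rfl⟩ := Nat.exists_eq_add_of_le h
      exact hdown m k P hP

/-- the set of all Laurent series which are power series in `branches A` is closed -/
theorem closed_branches (A : ℕ → Finset (Polynomial (ZMod p))) :
    ClosedN {x : Fin 1 → LaurentSeries (ZMod p) | ∃ f ∈ branches A,
      algebraMap (PowerSeries (ZMod p)) (LaurentSeries (ZMod p)) f = x 0} := by
  intro x hx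
  by_cases h : ∃ f : PowerSeries (ZMod p),
      algebraMap (PowerSeries (ZMod p)) (LaurentSeries (ZMod p)) f = x 0
  · obtain ⟨f, hf⟩ := h
    have h1 : f ∉ branches A := fun h1 => hx ⟨f, h1, hf⟩
    obtain ⟨n, hn⟩ : ∃ n, PowerSeries.trunc n f ∉ A n := by
      by_contra hcon
      push Not at hcon
      exact h1 hcon
    refine ⟨n, ?_⟩
    rintro y ⟨g, hg, hgy⟩ hV
    have h2 : PowerSeries.trunc n g = PowerSeries.trunc n f := by
      ext i
      rw [PowerSeries.coeff_trunc, PowerSeries.coeff_trunc]
      split_ifs with hi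
      · have h3 := hV 0 i (by exact_mod_cast hi)
        rw [← hf, ← hgy, HahnSeries.coeff_sub, sub_eq_zero, LaurentSeries.coe_algebraMap,
          LaurentSeries.coeff_coe_powerSeries, LaurentSeries.coeff_coe_powerSeries] at h3
        exact h3
      · rfl
    exact hn (h2 ▸ hg n)
  · obtain ⟨k, hk, hk'⟩ : ∃ k : ℤ, k < 0 ∧ (x 0).coeff k ≠ 0 := by
      by_contra hcon
      push Not at hcon
      refine h ⟨PowerSeries.mk fun n => (x 0).coeff n, ?_⟩
      refine HahnSeries.ext (funext fun k => ?_)
      rw [LaurentSeries.coe_algebraMap, PowerSeries.coeff_coe]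
      split_ifs with hk
      · exact (hcon k hk).symm
      · rw [PowerSeries.coeff_mk]
        congr 1
        omega
    refine ⟨0, ?_⟩
    rintro y ⟨g, hg, hgy⟩ hV
    have h3 := hV 0 k hk
    rw [← hgy, HahnSeries.coeff_sub, LaurentSeries.coe_algebraMap, PowerSeries.coeff_coe, if_pos hk,
      zero_sub, neg_eq_zero] at h3
    exact hk' h3

end

/-! ### An admissible sequence with an irrational series -/

open Classical in
/-- one plus the number of the factorials `1, 2, 6, ...` below `n` -/
noncomputable def facCount (n : ℕ) : ℕ :=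
  1 + ((Finset.range n).filter fun m => ∃ k : ℕ, (k + 1).factorial = m).card

open Classical in
theorem facCount_succ (n : ℕ) : facCount (n + 1) =
    facCount n + if ∃ k : ℕ, (k + 1).factorial = n then 1 else 0 := by
  rw [facCount, facCount, Finset.range_add_one, Finset.filter_insert]
  split_ifs with h
  · rw [Finset.card_insert_of_notMem (by simp)]
    ring
  · ring

theorem facCount_admissible {p : ℕ} (hp : 2 ≤ p) : Admissible p facCount := by
  classical
  refine ⟨by simp [facCount], fun n => ?_⟩
  have h1 : 1 ≤ facCount n := by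
    rw [facCount]
    omega
  rw [facCount_succ]
  constructor
  · omega
  · split_ifs
    · nlinarith
    · nlinarith

theorem facCount_irrational : ¬ RationalSeries facCount := by
  classical
  rintro ⟨Q, R, hQ, h⟩
  set D : PowerSeries ℚ := PowerSeries.mk fun n => if ∃ k : ℕ, (k + 1).factorial = n then 1 else 0
    with hD
  have hA : (1 - PowerSeries.X) * PowerSeries.mk (fun n => (facCount n : ℚ)) =
      1 + PowerSeries.X * D := by
    ext n
    rw [sub_mul, one_mul, map_sub, map_add]
    rcases n with _ | n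
    · simp [facCount]
    · rw [PowerSeries.coeff_mk, PowerSeries.coeff_succ_X_mul, PowerSeries.coeff_mk,
        PowerSeries.coeff_succ_X_mul, hD, PowerSeries.coeff_mk, facCount_succ]
      simp only [PowerSeries.coeff_one, Nat.succ_ne_zero, if_false, zero_add, Nat.cast_add]

      split_ifs <;> simp
  -- `X * Q * D` is a polynomial
  have h1 : ∃ S : Polynomial ℚ, (Q : PowerSeries ℚ) * (PowerSeries.X * D) = (S : PowerSeries ℚ) := by
    refine ⟨(1 - Polynomial.X) * R - Q, ?_⟩
    have h2 : PowerSeries.X * D =
        (1 - PowerSeries.X) * PowerSeries.mk (fun n => (facCount n : ℚ)) - 1 := by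
      rw [hA]
      ring
    rw [h2, mul_sub, mul_one, mul_left_comm, h]
    simp
  obtain ⟨S, hS⟩ := h1
  -- the coefficients of `Q` appear at the factorials
  apply hQ
  ext i
  rw [Polynomial.coeff_zero]
  set d := Q.natDegree + S.natDegree + i + 2 with hd
  set N := (d + 1).factorial with hN
  have hNd : d ≤ N := (Nat.self_le_factorial d).trans (Nat.factorial_le (by omega))
  have h2 : PowerSeries.coeff (N + 1 + i) ((Q : PowerSeries ℚ) * (PowerSeries.X * D)) = 0 := by
    rw [hS, Polynomial.coeff_coe]
    exact Polynomial.coeff_eq_zero_of_natDegree_lt (by omega)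
  rw [PowerSeries.coeff_mul, Finset.sum_eq_single (i, N + 1)] at h2
  · rw [Polynomial.coeff_coe, PowerSeries.coeff_succ_X_mul, hD, PowerSeries.coeff_mk,
      if_pos ⟨d, rfl⟩, mul_one] at h2
    exact h2
  · rintro ⟨u, v⟩ huv hne
    rw [Finset.HasAntidiagonal.mem_antidiagonal] at huv
    simp only at huv ⊢
    by_cases hu : Q.natDegree < u
    · rw [Polynomial.coeff_coe, Polynomial.coeff_eq_zero_of_natDegree_lt hu, zero_mul]
    · rcases v with _ | v
      · simp
      · rw [PowerSeries.coeff_succ_X_mul, hD, PowerSeries.coeff_mk, if_neg, mul_zero]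
        rintro ⟨k, hk⟩
        -- `v` is near to `N` but different from it
        have h3 : v ≠ N := by
          intro h3
          apply hne
          rw [Prod.mk.injEq]
          omega
        have h4 : N < v + d := by omega
        have h5 : v < N + d := by omega
        rcases lt_trichotomy k d with h6 | h6 | h6
        · have h7 : (k + 1).factorial ≤ d.factorial := Nat.factorial_le (by omega)
          have h8 : N = (d + 1) * d.factorial := Nat.factorial_succ d
          have h9 : 1 ≤ d.factorial := Nat.factorial_pos d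
          have h10 : d ≤ d * d.factorial := Nat.le_mul_of_pos_right d h9
          have h11 : N = d * d.factorial + d.factorial := by rw [h8]; ring
          omega
        · subst h6
          exact h3 hk.symm
        · have h7 : (d + 2).factorial ≤ (k + 1).factorial := Nat.factorial_le (by omega)
          have h8 : (d + 2).factorial = (d + 2) * N := Nat.factorial_succ (d + 1)
          have h9 : (d + 2) * N = d * N + 2 * N := by ring
          have h10 : 1 ≤ N := Nat.factorial_pos _
          omega
  · intro h3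
    exact absurd (Finset.HasAntidiagonal.mem_antidiagonal.2 (by simp only; ring)) h3

/-! ### Densities -/

theorem density_admissible {p : ℕ} (hp : 2 ≤ p) {r : ℝ} (h0 : 0 < r) (h1 : r ≤ 1) :
    Admissible p fun n => ⌈r * (p : ℝ) ^ n⌉₊ := by
  have hp0 : (0 : ℝ) < p := by positivity
  have hp1 : (1 : ℝ) ≤ p := by exact_mod_cast (by omega : 1 ≤ p)
  refine ⟨?_, fun n => ⟨?_, ?_⟩⟩
  · simp only [pow_zero, mul_one]
    exact le_antisymm (Nat.ceil_le.2 (by simpa using h1)) (Nat.one_le_iff_ne_zero.2 (by
      rw [Ne, Nat.ceil_eq_zero]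
      exact not_le.2 h0))
  · refine Nat.ceil_le_ceil (mul_le_mul_of_nonneg_left ?_ h0.le)
    exact pow_le_pow_right₀ hp1 (Nat.le_succ n)
  · refine Nat.ceil_le.2 ?_
    push_cast
    have h2 : r * (p : ℝ) ^ (n + 1) = p * (r * (p : ℝ) ^ n) := by ring
    rw [h2]
    exact mul_le_mul_of_nonneg_left (Nat.le_ceil _) hp0.le

theorem density_tendsto {p : ℕ} (hp : 2 ≤ p) {r : ℝ} (h0 : 0 < r) :
    Tendsto (fun n => ((⌈r * (p : ℝ) ^ n⌉₊ : ℕ) : ℝ) / (p : ℝ) ^ n) atTop (𝓝 r) := by
  have hp0 : (0 : ℝ) < p := by positivity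
  have hp1 : (1 : ℝ) < p := by exact_mod_cast (by omega : 1 < p)
  have h2 : Tendsto (fun n : ℕ => r + 1 / (p : ℝ) ^ n) atTop (𝓝 (r + 0)) := by
    refine tendsto_const_nhds.add ?_
    have h3 := tendsto_pow_atTop_nhds_zero_of_lt_one (r := 1 / (p : ℝ)) (by positivity)
      ((div_lt_one hp0).2 hp1)
    simpa [one_div, inv_pow] using h3
  rw [add_zero] at h2
  refine tendsto_of_tendsto_of_tendsto_of_le_of_le tendsto_const_nhds h2 (fun n => ?_) fun n => ?_
  · have hpn : (0 : ℝ) < (p : ℝ) ^ n := by positivity
    change r ≤ _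
    rw [le_div_iff₀ hpn]
    exact Nat.le_ceil _
  · have hpn : (0 : ℝ) < (p : ℝ) ^ n := by positivity
    change _ ≤ r + 1 / (p : ℝ) ^ n
    rw [div_le_iff₀ hpn, add_mul, one_div, inv_mul_cancel₀ hpn.ne']
    exact (Nat.ceil_lt_add_one (by positivity)).le

end Pool.Agent.Helper38.EQ
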