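import Mathlib
import Pool.Graph.R_seed8.Y514.UF.REN
import Pool.Graph.R_seed8.Y410.UF.Disc2
import Pool.Graph.R_seed8.Y924.UF.Stm2

/-!
# Formulas with several quantifiers

Auxiliary file for the result `OmittedSeries` of the page MP_db9079_lc.
-/

set_option autoImplicit false

namespace Pool.Agent.Helper38.EQ

open Pool.Agent.Y924.EL Pool.Agent.Y924.UF
open Function

/-- all variables of the formula, free and bound, are smaller than this number -/
def bd : Fm → ℕ
  | .eq i j => max i j + 1
  | .one i => i + 1
  | .add i j k => max i (max j k) + 1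
  | .mul i j k => max i (max j k) + 1
  | .val i => i + 1
  | .neg φ => bd φ
  | .and φ ψ => max (bd φ) (bd ψ)
  | .ex i φ => max (i + 1) (bd φ)

section

variable {K : Type*} [Add K] [Mul K] [One K] (O : Set K)

theorem sat_congr (φ : Fm) : ∀ (v v' : ℕ → K), (∀ i, i < bd φ → v i = v' i) →
    (Sat O φ v ↔ Sat O φ v') := by
  induction φ with
  | eq i j =>
    intro v v' h
    simp only [bd] at h
    simp only [Sat]
    rw [h i (by omega), h j (by omega)]
  | one i =>
    intro v v' h
    simp only [bd] at h
    simp only [Sat]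
    rw [h i (by omega)]
  | add i j k =>
    intro v v' h
    simp only [bd] at h
    simp only [Sat]
    rw [h i (by omega), h j (by omega), h k (by omega)]
  | mul i j k =>
    intro v v' h
    simp only [bd] at h
    simp only [Sat]
    rw [h i (by omega), h j (by omega), h k (by omega)]
  | val i =>
    intro v v' h
    simp only [bd] at h
    simp only [Sat]
    rw [h i (by omega)]
  | neg φ ih =>
    intro v v' h
    simp only [bd] at h
    simp only [Sat]
    rw [ih v v' h]
  | and φ ψ ih1 ih2 =>
    intro v v' h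
    simp only [bd] at h
    simp only [Sat]
    rw [ih1 v v' fun i hi => h i (by omega), ih2 v v' fun i hi => h i (by omega)]
  | ex i φ ih =>
    intro v v' h
    simp only [bd] at h
    simp only [Sat]
    refine exists_congr fun a => ih _ _ fun j hj => ?_
    by_cases hji : j = i
    · subst hji
      rw [update_self, update_self]
    · rw [update_of_ne hji, update_of_ne hji, h j (by omega)]

/-- several existential quantifiers -/
def exs : List ℕ → Fm → Fm
  | [], φ => φ
  | i :: l, φ => .ex i (exs l φ)

/-- several universal quantifiers -/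
def alls (l : List ℕ) (φ : Fm) : Fm := .neg (exs l (.neg φ))

/-- implication -/
def imp (φ ψ : Fm) : Fm := .neg (.and φ (.neg ψ))

theorem sat_exs (φ : Fm) : ∀ (l : List ℕ) (v : ℕ → K), Sat O (exs l φ) v ↔
    ∃ v', (∀ i, i ∉ l → v' i = v i) ∧ Sat O φ v' := by
  intro l
  induction l with
  | nil =>
    intro v
    constructor
    · intro h
      exact ⟨v, fun _ _ => rfl, h⟩
    · rintro ⟨v', h1, h2⟩
      have : v' = v := funext fun i => h1 i (by simp)
      rwa [this] at h2
  | cons i l ih =>
    intro v
    simp only [exs, Sat]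
    constructor
    · rintro ⟨a, ha⟩
      obtain ⟨v', h1, h2⟩ := (ih _).1 ha
      refine ⟨v', fun j hj => ?_, h2⟩
      simp only [List.mem_cons, not_or] at hj
      rw [h1 j hj.2, update_of_ne hj.1]
    · rintro ⟨v', h1, h2⟩
      refine ⟨v' i, (ih _).2 ⟨v', fun j hj => ?_, h2⟩⟩
      by_cases hji : j = i
      · subst hji
        rw [update_self]
      · rw [update_of_ne hji, h1 j (by simp [hji, hj])]

theorem sat_alls (φ : Fm) (l : List ℕ) (v : ℕ → K) : Sat O (alls l φ) v ↔
    ∀ v', (∀ i, i ∉ l → v' i = v i) → Sat O φ v' := by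
  simp only [alls, Sat, sat_exs]
  constructor
  · intro h v' hv'
    by_contra hcon
    exact h ⟨v', hv', hcon⟩
  · rintro h ⟨v', h1, h2⟩
    exact h2 (h v' h1)

theorem sat_imp (φ ψ : Fm) (v : ℕ → K) : Sat O (imp φ ψ) v ↔ (Sat O φ v → Sat O ψ v) := by
  simp only [imp, Sat]
  tauto

/-- the relation between five elements which is defined by `φ` with the parameters `w` -/
def Rel5 (φ : Fm) (w : ℕ → K) (x y u z s : K) : Prop :=
  Sat O φ (fun j => if j = 0 then x else if j = 1 then y else if j = 2 then u else
    if j = 3 then z else if j = 4 then s else w j)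

end

/-- the variables of the coordinates are kept, the parameters are moved -/
def mv (j : ℕ) : ℕ := if j < 5 then j else j + 20

theorem mv_inj : Injective mv := by
  intro a b h
  simp only [mv] at h
  split_ifs at h <;> omega

/-- the formula `φ` for the variables `a`, `b`, `c`, `d`, `e` -/
def ins (φ : Fm) (a b c d e : ℕ) : Fm :=
  exs [0, 1, 2, 3, 4] (.and (.eq 0 a) (.and (.eq 1 b) (.and (.eq 2 c) (.and (.eq 3 d)
    (.and (.eq 4 e) (ren mv φ))))))

theorem sat_ins {K : Type} [CommRing K] (O : Set K) (φ : Fm) (v : ℕ → K) {a b c d e : ℕ}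
    (ha : 5 ≤ a) (hb : 5 ≤ b) (hc : 5 ≤ c) (hd : 5 ≤ d) (he : 5 ≤ e) :
    Sat O (ins φ a b c d e) v ↔ Rel5 O φ (fun j => v (j + 20)) (v a) (v b) (v c) (v d) (v e) := by
  have key : ∀ v' : ℕ → K, (∀ i, i ∉ [0, 1, 2, 3, 4] → v' i = v i) →
      v' 0 = v a → v' 1 = v b → v' 2 = v c → v' 3 = v d → v' 4 = v e →
      (Sat O (ren mv φ) v' ↔ Rel5 O φ (fun j => v (j + 20)) (v a) (v b) (v c) (v d) (v e)) := by
    intro v' h h0 h1 h2 h3 h4
    rw [Pool.Agent.Y514.UF.t_REN.1 K O mv mv_inj φ v', Rel5]
    refine iff_of_eq (congrArg _ (funext fun j => ?_))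
    simp only [comp, mv]
    by_cases hj : j < 5
    · rw [if_pos hj]
      interval_cases j
      · simpa using h0
      · simpa using h1
      · simpa using h2
      · simpa using h3
      · simpa using h4
    · rw [if_neg hj, if_neg (by omega), if_neg (by omega), if_neg (by omega), if_neg (by omega),
        if_neg (by omega)]
      refine h _ ?_
      simp only [List.mem_cons, List.not_mem_nil, or_false]
      omega
  have hn : ∀ i, 5 ≤ i → i ∉ [0, 1, 2, 3, 4] := by
    intro i hi
    simp only [List.mem_cons, List.not_mem_nil, or_false]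
    omega
  rw [ins, sat_exs]
  constructor
  · rintro ⟨v', h, h5⟩
    simp only [Sat] at h5
    obtain ⟨h0, h1, h2, h3, h4, h5⟩ := h5
    rw [h a (hn a ha)] at h0
    rw [h b (hn b hb)] at h1
    rw [h c (hn c hc)] at h2
    rw [h d (hn d hd)] at h3
    rw [h e (hn e he)] at h4
    exact (key v' h h0 h1 h2 h3 h4).1 h5
  · intro h
    set v' : ℕ → K := fun i => if i = 0 then v a else if i = 1 then v b else if i = 2 then v c else
      if i = 3 then v d else if i = 4 then v e else v i with hv'
    have hh : ∀ i, 5 ≤ i → v' i = v i := by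
      intro i hi
      simp only [hv']
      rw [if_neg (by omega), if_neg (by omega), if_neg (by omega), if_neg (by omega),
        if_neg (by omega)]
    have hk : ∀ i, i ∉ [0, 1, 2, 3, 4] → v' i = v i := by
      intro i hi
      simp only [List.mem_cons, List.not_mem_nil, or_false] at hi
      exact hh i (by omega)
    refine ⟨v', hk, ?_⟩
    simp only [Sat]
    rw [hh a ha, hh b hb, hh c hc, hh d hd, hh e he]
    exact ⟨rfl, rfl, rfl, rfl, rfl, (key v' hk rfl rfl rfl rfl rfl).2 h⟩

/-! ### Powers -/

/-- the variable `15` is the `q`-th power of the variable `14` -/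
def pwf : ℕ → Fm
  | 0 => .one 15
  | q + 1 => .ex 16 (.and (.mul 16 14 15) (.ex 15 (.and (.eq 15 16) (pwf q))))

theorem sat_pwf {K : Type} [CommRing K] (O : Set K) : ∀ (q : ℕ) (v : ℕ → K),
    Sat O (pwf q) v ↔ v 15 = v 14 ^ q := by
  intro q
  induction q with
  | zero =>
    intro v
    simp only [pwf, Sat, pow_zero]
  | succ q ih =>
    intro v
    simp only [pwf, Sat, ih]
    constructor
    · rintro ⟨a, h1, b, h2, h3⟩
      rw [update_self, update_of_ne (by decide), update_of_ne (by decide)] at h1
      rw [update_self, update_of_ne (by decide), update_self] at h2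
      rw [update_self, update_of_ne (by decide), update_of_ne (by decide)] at h3
      rw [← h1, ← h2, h3, pow_succ]
    · intro h
      refine ⟨v 14 ^ q, ?_, v 14 ^ q, ?_, ?_⟩
      · rw [update_self, update_of_ne (by decide), update_of_ne (by decide), h, pow_succ]
      · rw [update_self, update_of_ne (by decide), update_self]
      · rw [update_self, update_of_ne (by decide), update_of_ne (by decide)]

/-- the variable `b` is the `q`-th power of the variable `a` -/
def powr (q a b : ℕ) : Fm := exs [14, 15] (.and (.eq 14 a) (.and (.eq 15 b) (pwf q)))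

theorem sat_powr {K : Type} [CommRing K] (O : Set K) (q : ℕ) (v : ℕ → K) {a b : ℕ}
    (ha : a ≠ 14 ∧ a ≠ 15) (hb : b ≠ 14 ∧ b ≠ 15) : Sat O (powr q a b) v ↔ v b = v a ^ q := by
  rw [powr, sat_exs]
  constructor
  · rintro ⟨v', h, h1⟩
    simp only [Sat, sat_pwf] at h1
    obtain ⟨h1, h2, h3⟩ := h1
    rw [h a (by simp [ha.1, ha.2])] at h1
    rw [h b (by simp [hb.1, hb.2])] at h2
    rw [← h1, ← h2, h3]
  · intro h
    let v' : ℕ → K := fun i => if i = 14 then v a else if i = 15 then v b else v i
    have h1 : ∀ i, i ≠ 14 → i ≠ 15 → v' i = v i := fun i h2 h3 => by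
      simp only [v', if_neg h2, if_neg h3]
    refine ⟨v', fun i hi => ?_, ?_⟩
    · simp only [List.mem_cons, List.not_mem_nil, or_false, not_or] at hi
      exact h1 i hi.1 hi.2
    · simp only [Sat, sat_pwf]
      rw [h1 a ha.1 ha.2, h1 b hb.1 hb.2]
      exact ⟨rfl, rfl, h⟩

/-- `1 + x_12 x_10 ^ q` is a `q`-th power -/
def vlf (q : ℕ) : Fm := exs [17, 18, 19, 20, 21] (.and (powr q 10 17) (.and (.mul 12 17 18)
  (.and (.one 19) (.and (.add 19 18 20) (powr q 21 20)))))

theorem sat_vlf {K : Type} [CommRing K] (O : Set K) (q : ℕ) (v : ℕ → K) :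
    Sat O (vlf q) v ↔ OT q (v 12) (v 10) := by
  rw [vlf, sat_exs, OT]
  constructor
  · rintro ⟨v', h, h1⟩
    simp only [Sat] at h1
    rw [sat_powr O q v' (by decide) (by decide), sat_powr O q v' (by decide) (by decide)] at h1
    obtain ⟨h1, h2, h3, h4, h5⟩ := h1
    rw [h 10 (by simp)] at h1
    rw [h 12 (by simp)] at h2
    exact ⟨v' 21, by rw [← h5, ← h4, h3, ← h2, h1]⟩
  · rintro ⟨y, hy⟩
    let v' : ℕ → K := fun i => if i = 17 then v 10 ^ q else if i = 18 then v 12 * v 10 ^ q else
      if i = 19 then 1 else if i = 20 then 1 + v 12 * v 10 ^ q else if i = 21 then y else v i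
    have h1 : v' 10 = v 10 := rfl
    have h2 : v' 12 = v 12 := rfl
    refine ⟨v', fun i hi => ?_, ?_⟩
    · simp only [List.mem_cons, List.not_mem_nil, or_false, not_or] at hi
      obtain ⟨h17, h18, h19, h20, h21⟩ := hi
      simp only [v', if_neg h17, if_neg h18, if_neg h19, if_neg h20, if_neg h21]
    · simp only [Sat]
      rw [sat_powr O q v' (by decide) (by decide), sat_powr O q v' (by decide) (by decide)]
      exact ⟨rfl, rfl, rfl, rfl, hy.symm⟩

end Pool.Agent.Helper38.EQ
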