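import Mathlib

/-!
# The series `t + t ^ 2 + t ^ 6 + t ^ 24 + ...`

Auxiliary file for the result `OmittedSeries` of the page MP_db9079_lc.
-/

set_option autoImplicit false

namespace Pool.Agent.Helper38.EQ

/-- the power series `∑ t ^ (n !)`, `n ≥ 1` -/
noncomputable def facP (p : ℕ) : PowerSeries (ZMod p) := by
  classical exact PowerSeries.mk fun m => if ∃ k : ℕ, (k + 1).factorial = m then 1 else 0

/-- its partial sums -/
noncomputable def facS (p n : ℕ) : Polynomial (ZMod p) :=
  ∑ k ∈ Finset.range n, Polynomial.X ^ (k + 1).factorial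

variable {p : ℕ}

theorem fac_inj {a b : ℕ} (h : (a + 1).factorial = (b + 1).factorial) : a = b := by
  rcases lt_trichotomy a b with h1 | h1 | h1
  · exact absurd h (Nat.factorial_lt_of_lt (by omega) (by omega)).ne
  · exact h1
  · exact absurd h.symm (Nat.factorial_lt_of_lt (by omega) (by omega)).ne

theorem coeff_facS (n m : ℕ) (hm : m < (n + 1).factorial) :
    (facS p n).coeff m = PowerSeries.coeff m (facP p) := by
  classical
  rw [facS, Polynomial.finsetSum_coeff, facP, PowerSeries.coeff_mk]
  simp only [Polynomial.coeff_X_pow]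
  by_cases h : ∃ k : ℕ, (k + 1).factorial = m
  · rw [if_pos h]
    obtain ⟨k, rfl⟩ := h
    have hk : k < n := by
      by_contra hk
      exact absurd (Nat.factorial_le (show n + 1 ≤ k + 1 by omega)) (not_le.2 hm)
    rw [Finset.sum_eq_single k, if_pos rfl]
    · intro b _ hb
      rw [if_neg fun h => hb (fac_inj h).symm]
    · intro h
      exact absurd (Finset.mem_range.2 hk) h
  · rw [if_neg h]
    refine Finset.sum_eq_zero fun k _ => ?_
    rw [if_neg fun h1 => h ⟨k, h1.symm⟩]

theorem dvd_fac (n : ℕ) : PowerSeries.X ^ (n + 1).factorial ∣ facP p - (facS p n : PowerSeries _) := by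
  rw [PowerSeries.X_pow_dvd_iff]
  intro m hm
  rw [map_sub, Polynomial.coeff_coe, coeff_facS n m hm, sub_self]

theorem natDegree_facS (n : ℕ) : (facS p n).natDegree ≤ n.factorial := by
  refine Polynomial.natDegree_sum_le_of_forall_le _ _ fun k hk => ?_
  refine (Polynomial.natDegree_X_pow_le _).trans (Nat.factorial_le ?_)
  have := Finset.mem_range.1 hk
  omega

theorem facS_inj [Fact p.Prime] {a b : ℕ} (h : facS p a = facS p b) : a = b := by
  wlog hab : a < b generalizing a b
  · rcases lt_trichotomy a b with h1 | h1 | h1
    · exact absurd h1 hab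
    · exact h1
    · exact (this h.symm h1).symm
  exfalso
  have h1 : (facS p b).coeff (a + 1).factorial = 1 := by
    rw [coeff_facS b _ (Nat.factorial_lt_of_lt (by omega) (by omega)), facP, PowerSeries.coeff_mk,
      if_pos ⟨a, rfl⟩]
  have h2 : (facS p a).coeff (a + 1).factorial = 0 := by
    refine Polynomial.coeff_eq_zero_of_natDegree_lt ?_
    rcases Nat.eq_zero_or_pos a with h0 | h0
    · subst h0
      simp [facS]
    · exact (natDegree_facS a).trans_lt (Nat.factorial_lt_of_lt h0 (by omega))
  rw [h, h1] at h2
  exact one_ne_zero h2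

/-- the series is transcendental over `F_p[t]` -/
theorem fac_transcendental [Fact p.Prime] (f : Polynomial (Polynomial (ZMod p)))
    (hf : f ≠ 0) (h0 : f.eval₂ (Polynomial.coeToPowerSeries.ringHom) (facP p) = 0) : False := by
  classical
  set ι : Polynomial (ZMod p) →+* PowerSeries (ZMod p) := Polynomial.coeToPowerSeries.ringHom
    with hι
  -- the degree in `t` of the value at the polynomial `facS p n`
  set h : ℕ := f.support.sup fun i => (f.coeff i).natDegree with hh
  have hdeg : ∀ n, (f.eval (facS p n)).natDegree ≤ h + f.natDegree * n.factorial := by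
    intro n
    rw [Polynomial.eval_eq_sum, Polynomial.sum]
    refine Polynomial.natDegree_sum_le_of_forall_le _ _ fun i hi => ?_
    refine Polynomial.natDegree_mul_le.trans (Nat.add_le_add ?_ ?_)
    · exact Finset.le_sup (f := fun i => (f.coeff i).natDegree) hi
    · refine Polynomial.natDegree_pow_le.trans (Nat.mul_le_mul ?_ (natDegree_facS n))
      exact Polynomial.le_natDegree_of_mem_supp i hi
  have hdvd : ∀ n, PowerSeries.X ^ (n + 1).factorial ∣ ι (f.eval (facS p n)) := by
    intro n
    have h1 : ι (f.eval (facS p n)) = (f.map ι).eval (ι (facS p n)) := by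
      rw [Polynomial.eval_map, Polynomial.eval₂_hom]
    have h2 : (f.map ι).eval (facP p) = 0 := by
      rw [Polynomial.eval_map]
      exact h0
    rw [h1, ← sub_zero ((f.map ι).eval (ι (facS p n))), ← h2]
    refine dvd_trans ?_ (Polynomial.sub_dvd_eval_sub _ _ _)
    rw [← neg_sub, dvd_neg]
    exact dvd_fac n
  have hzero : ∀ n, h + f.natDegree ≤ n → f.eval (facS p n) = 0 := by
    intro n hn
    refine Polynomial.ext fun m => ?_
    rw [Polynomial.coeff_zero]
    have hlt : h + f.natDegree * n.factorial < (n + 1).factorial := by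
      rw [Nat.factorial_succ]
      have h1 : 1 ≤ n.factorial := Nat.factorial_pos n
      nlinarith
    by_cases hm : m < (n + 1).factorial
    · have h1 := PowerSeries.X_pow_dvd_iff.1 (hdvd n) m hm
      rw [hι] at h1
      simpa using h1
    · exact Polynomial.coeff_eq_zero_of_natDegree_lt (by
        have := hdeg n
        omega)
  have hinf : (Set.range fun n => facS p (h + f.natDegree + n)).Infinite :=
    Set.infinite_range_of_injective fun a b hab => by
      have := facS_inj hab
      omega
  refine hinf (Set.Finite.subset (f.roots.toFinset.finite_toSet) ?_)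
  rintro _ ⟨n, rfl⟩
  simp only [Finset.mem_coe, Multiset.mem_toFinset]
  rw [Polynomial.mem_roots hf]
  exact hzero _ (by omega)

end Pool.Agent.Helper38.EQ
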