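import Pool.Graph.R_pool_sql_team_seeded_1e53cb71.Results.MP_db9079_lc.ProjectiveSets
import Pool.Agent.Helper38.EQ.Cla
import Pool.Agent.Helper38.EQ.Tra

/-!
# The clauses in `F_p((t))` and in its subfields

Auxiliary file for the result `OmittedSeries` of the page MP_db9079_lc.
-/

set_option autoImplicit false

namespace Pool.Agent.Helper38.EQ

open Pool.Agent.Y924.EL Pool.Agent.Y924.UF
open Pool.Agent.Helper14K9.PJ (Vle ClosedN Proj)
open Pool.Agent.Results.MP_db9079_lc.UniformFiniteness (ValRing)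
open Pool.Agent.Results.MP_db9079_lc.LocallyFiniteValues (DSet LFTame)
open Pool.Agent.Results.MP_db9079_lc.ProjectiveSets (AllProj)
open Function

variable (p : ℕ) [Fact p.Prime]

/-- the power `t ^ k` -/
noncomputable def T (k : ℤ) : LaurentSeries (ZMod p) := HahnSeries.single k 1

/-- the sum of the `t ^ (k !)` with `1 ≤ k ≤ n` -/
noncomputable def S (n : ℕ) : LaurentSeries (ZMod p) :=
  ∑ k ∈ Finset.range n, T p ((k + 1).factorial : ℤ)

/-- the series `∑ t ^ (n !)`, `n ≥ 1` -/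
noncomputable def facL : LaurentSeries (ZMod p) :=
  algebraMap (PowerSeries (ZMod p)) (LaurentSeries (ZMod p)) (facP p)

variable {p}

theorem T_mul (a b : ℤ) : T p a * T p b = T p (a + b) := by
  simp [T, HahnSeries.single_mul_single]

theorem T_zero : T p 0 = 1 := rfl

theorem T_coeff (a : ℤ) : (T p a).coeff a = 1 := HahnSeries.coeff_single_same a 1

theorem T_inj {a b : ℤ} (h : T p a = T p b) : a = b := by
  by_contra hne
  have h1 := T_coeff (p := p) a
  rw [h, T, HahnSeries.coeff_single_of_ne hne] at h1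
  exact zero_ne_one h1

theorem T_nat (n : ℕ) : T p n =
    algebraMap (PowerSeries (ZMod p)) (LaurentSeries (ZMod p)) (PowerSeries.X ^ n) := by
  rw [LaurentSeries.coe_algebraMap, HahnSeries.ofPowerSeries_X_pow, T]

theorem S_eq (n : ℕ) : S p n = algebraMap (PowerSeries (ZMod p)) (LaurentSeries (ZMod p))
    (facS p n : PowerSeries (ZMod p)) := by
  have h1 : (facS p n : PowerSeries (ZMod p)) = Polynomial.coeToPowerSeries.ringHom (facS p n) := rfl
  rw [h1, S, facS, map_sum, map_sum]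
  refine Finset.sum_congr rfl fun k _ => ?_
  rw [T_nat, map_pow]
  simp

/-- The partial sums are close to the series. -/
theorem fac_near (n : ℕ) : ∃ o ∈ ValRing p, S p n + T p ((n + 1).factorial : ℕ) * o = facL p := by
  obtain ⟨g, hg⟩ := dvd_fac (p := p) n
  refine ⟨_, ⟨g, rfl⟩, ?_⟩
  rw [S_eq, T_nat, ← map_mul, ← map_add, ← hg, facL]
  congr 1
  ring

theorem coeff_T_mul {N m : ℤ} (h : m < N) {o : LaurentSeries (ZMod p)} (ho : o ∈ ValRing p) :
    (T p N * o).coeff m = 0 := by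
  obtain ⟨g, rfl⟩ := ho
  have h1 : m = (m - N) + N := by ring
  rw [h1, T, HahnSeries.coeff_single_mul_add, LaurentSeries.coe_algebraMap,
    PowerSeries.coeff_coe, if_pos (by omega), mul_zero]

/-- An element which is close to the partial sums is the series. -/
theorem eq_fac {c : LaurentSeries (ZMod p)}
    (h : ∀ n, ∃ o ∈ ValRing p, S p (n + 1) + T p ((n + 2).factorial : ℕ) * o = c) :
    c = facL p := by
  refine HahnSeries.ext (funext fun m => ?_)
  obtain ⟨o, ho, h1⟩ := h m.toNat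
  obtain ⟨o', ho', h2⟩ := fac_near (p := p) (m.toNat + 1)
  have hm : m < ((m.toNat + 2).factorial : ℕ) := by
    have := Nat.self_le_factorial (m.toNat + 2)
    omega
  rw [← h1, ← h2, HahnSeries.coeff_add, HahnSeries.coeff_add, coeff_T_mul hm ho,
    coeff_T_mul hm ho']

/-! ### The intended relation is closed -/

theorem Vle.mono' {M N : ℤ} (h : M ≤ N) {z : LaurentSeries (ZMod p)} (hz : Vle N z) : Vle M z :=
  fun n hn => hz n (hn.trans_le h)

theorem closedN_range {ι : Type*} {m : ℕ} (F : ι → Fin m → LaurentSeries (ZMod p))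
    (h : ∀ x : Fin m → LaurentSeries (ZMod p), ∃ N0 : ℤ, {a | ∀ i, Vle N0 (F a i - x i)}.Finite) :
    ClosedN (Set.range F) := by
  intro x hx
  obtain ⟨N0, hN0⟩ := h x
  have h1 : ∀ a, ∃ N : ℕ, ¬ ∀ i, Vle (N : ℤ) (F a i - x i) := by
    intro a
    have h2 : F a ≠ x := fun h => hx ⟨a, h⟩
    obtain ⟨i, hi⟩ := Function.ne_iff.1 h2
    obtain ⟨k, hk⟩ : ∃ k, (F a i - x i).coeff k ≠ 0 := by
      by_contra hcon
      push Not at hcon
      exact hi (sub_eq_zero.1 (HahnSeries.ext (funext hcon)))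
    exact ⟨(k + 1).toNat, fun h3 => hk (h3 i k (by omega))⟩
  choose N hN using h1
  refine ⟨max N0 ((∑ a ∈ hN0.toFinset, N a : ℕ) : ℤ), ?_⟩
  rintro _ ⟨a, rfl⟩ hV
  have ha : a ∈ hN0.toFinset := hN0.mem_toFinset.2 fun i => Vle.mono' (le_max_left _ _) (hV i)
  refine hN a fun i => Vle.mono' (le_trans ?_ (le_max_right _ _)) (hV i)
  exact_mod_cast Finset.single_le_sum (fun _ _ => Nat.zero_le _) ha

/-- the tuples of the intended relation -/
noncomputable def tup (a : ℕ × ℕ) : Fin 5 → LaurentSeries (ZMod p) :=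
  ![T p (-(a.1 + 1 : ℕ)), T p ((a.1 + 1).factorial : ℕ), T p (-(a.2 : ℕ)),
    T p ((a.2 * (a.1 + 1).factorial : ℕ)), S p (a.1 + 1)]

theorem le_of_vle {k : ℕ} {z : LaurentSeries (ZMod p)} (h : Vle 1 (T p (-(k : ℤ)) - z)) :
    k ≤ (-z.order).toNat := by
  have h1 := h (-(k : ℤ)) (by omega)
  rw [HahnSeries.coeff_sub, T_coeff, sub_eq_zero] at h1
  have h2 : z.order ≤ -(k : ℤ) := HahnSeries.order_le_of_coeff_ne_zero (by
    rw [← h1]
    exact one_ne_zero)
  omega

theorem closed_tup : ClosedN (Set.range (tup (p := p))) := by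
  refine closedN_range _ fun x => ⟨1, ?_⟩
  refine ((Set.finite_Iic (-(x 0).order).toNat).prod
    (Set.finite_Iic (-(x 2).order).toNat)).subset ?_
  rintro ⟨n, j⟩ h
  have h0 := h 0
  have h2 := h 2
  simp only [tup, Matrix.cons_val_zero] at h0
  have h2' : Vle 1 (T p (-(j : ℤ)) - x 2) := h2
  have h3 := le_of_vle h0
  have h4 := le_of_vle h2'
  exact ⟨by simp only [Set.mem_Iic]; omega, h4⟩

theorem ot_iff (z : LaurentSeries (ZMod p)) : OT (p + 1) (T p 1) z ↔ z ∈ ValRing p :=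
  ((Pool.Agent.Y748.UF.t_VAL Pool.Agent.Y675.UF.t_ROOT p).1 z).symm

/-- If all projective sets are definable, then the clauses are true for suitable parameters and the
series. -/
theorem clauses {P : Set (LaurentSeries (ZMod p))} (h : AllProj p P) :
    ∃ (φ : Fm) (w : ℕ → LaurentSeries (ZMod p)),
      Cl {x | OT (p + 1) (T p 1) x} (T p 1) (facL p) (Rel5 P φ w) := by
  obtain ⟨φ, w, hw⟩ := h 5 _ (Proj.closed _ closed_tup)
  have hR : ∀ x y u z s, Rel5 P φ w x y u z s ↔ ∃ n j : ℕ, x = T p (-(n + 1 : ℕ)) ∧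
      y = T p ((n + 1).factorial : ℕ) ∧ u = T p (-(j : ℕ)) ∧
      z = T p ((j * (n + 1).factorial : ℕ)) ∧ s = S p (n + 1) := by
    intro x y u z s
    have h1 : Rel5 P φ w x y u z s ↔
        (![x, y, u, z, s] : Fin 5 → _) ∈ DSet p P φ 5 w := by
      rw [DSet, Set.mem_ofPred_eq, Rel5]
      refine iff_of_eq (congrArg _ (funext fun i => ?_))
      by_cases hi : i < 5
      · rw [dif_pos hi]
        interval_cases i <;> rfl
      · rw [dif_neg hi, if_neg (by omega), if_neg (by omega), if_neg (by omega), if_neg (by omega),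
          if_neg (by omega)]
    rw [h1, hw]
    constructor
    · rintro ⟨⟨n, j⟩, hnj⟩
      refine ⟨n, j, ?_, ?_, ?_, ?_, ?_⟩
      · exact (congrFun hnj 0).symm
      · exact (congrFun hnj 1).symm
      · exact (congrFun hnj 2).symm
      · exact (congrFun hnj 3).symm
      · exact (congrFun hnj 4).symm
    · rintro ⟨n, j, rfl, rfl, rfl, rfl, rfl⟩
      exact ⟨(n, j), rfl⟩
  refine ⟨φ, w, ⟨1, T p (-(0 + 1 : ℕ)), rfl, ?_, ?_⟩, ?_, ?_, ?_⟩
  · rw [T_mul]
    rfl
  · rw [hR]
    refine ⟨0, 0, rfl, rfl, rfl, by simp [T_zero], ?_⟩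
    simp [S]
  · intro x y u z s u' z' h1 h2 h3
    rw [hR] at h3 ⊢
    obtain ⟨n, j, rfl, rfl, rfl, rfl, rfl⟩ := h3
    refine ⟨n, j + 1, rfl, rfl, ?_, ?_, rfl⟩
    · have h4 : u = u * T p 1 * T p (-1) := by
        rw [mul_assoc, T_mul]
        norm_num [T_zero]
      rw [h4, h1, T_mul]
      congr 1
      push_cast
      ring
    · rw [← h2, T_mul]
      congr 1
      push_cast
      ring
  · intro x y u z s i r h1 h2 hi h3
    rw [hR] at h3 ⊢
    obtain ⟨n, j, rfl, rfl, rfl, rfl, rfl⟩ := h3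
    rw [T_mul] at h1
    have h4 : j = n + 2 := by
      have := T_inj h1
      omega
    subst h4
    refine ⟨n + 1, 0, rfl, ?_, ?_, ?_, ?_⟩
    · rw [Nat.factorial_succ (n + 1)]
    · rw [hi]
      simp [T_zero]
    · rw [hi]
      simp [T_zero]
    · rw [← h2, S, S, Finset.sum_range_succ _ (n + 1), Nat.factorial_succ (n + 1)]
  · intro x y u z s _ _ h1 h3
    rw [hR] at h3
    obtain ⟨n, j, rfl, rfl, rfl, rfl, rfl⟩ := h3
    rw [T_mul] at h1
    have h4 : j = n + 2 := by
      have := T_inj h1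
      omega
    subst h4
    obtain ⟨o, ho, h5⟩ := fac_near (p := p) (n + 1)
    refine ⟨o, _, (ot_iff o).2 ho, rfl, ?_⟩
    rw [← h5, Nat.factorial_succ (n + 1)]

/-! ### Subfields -/

theorem T_zpow (k : ℤ) : T p 1 ^ k = T p k := by
  have h1 : ∀ n : ℕ, T p 1 ^ n = T p n := by
    intro n
    induction n with
    | zero => rfl
    | succ n ih =>
      rw [pow_succ, ih, T_mul]
      push_cast
      rfl
  obtain ⟨n, rfl | rfl⟩ := k.eq_nat_or_neg
  · rw [zpow_natCast, h1]
  · rw [zpow_neg, zpow_natCast, h1]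
    refine inv_eq_of_mul_eq_one_left ?_
    rw [T_mul]
    simp [T_zero]

theorem series_mem {L : Subfield (LaurentSeries (ZMod p))} (ht : T p 1 ∈ L)
    {c : L} {R : L → L → L → L → L → Prop}
    (h : Cl {a : L | OT (p + 1) ⟨T p 1, ht⟩ a} ⟨T p 1, ht⟩ c R) :
    (c : LaurentSeries (ZMod p)) = facL p := by
  set t : L := ⟨T p 1, ht⟩ with hdef
  obtain ⟨h0, h1, h2, h3⟩ := h
  have ht0 : t ≠ 0 := by
    intro h
    have h4 : T p 1 = 0 := congrArg Subtype.val h
    have h5 := T_coeff (p := p) 1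
    rw [h4] at h5
    exact zero_ne_one h5
  have hz : ∀ a b : ℤ, t ^ a * t ^ b = t ^ (a + b) := fun a b => (zpow_add₀ ht0 a b).symm
  let SL : ℕ → L := fun n => ∑ k ∈ Finset.range n, t ^ (((k + 1).factorial : ℕ) : ℤ)
  have hA : ∀ n j : ℕ, R (t ^ (-(n + 1 : ℕ) : ℤ)) (t ^ (((n + 1).factorial : ℕ) : ℤ))
      (t ^ (-(j : ℕ) : ℤ)) (t ^ ((j * (n + 1).factorial : ℕ) : ℤ)) (SL (n + 1)) := by
    intro n
    have step : ∀ (n : ℕ), R (t ^ (-(n + 1 : ℕ) : ℤ)) (t ^ (((n + 1).factorial : ℕ) : ℤ))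
        (t ^ (-(0 : ℕ) : ℤ)) (t ^ ((0 * (n + 1).factorial : ℕ) : ℤ)) (SL (n + 1)) →
        ∀ j : ℕ, R (t ^ (-(n + 1 : ℕ) : ℤ)) (t ^ (((n + 1).factorial : ℕ) : ℤ))
          (t ^ (-(j : ℕ) : ℤ)) (t ^ ((j * (n + 1).factorial : ℕ) : ℤ)) (SL (n + 1)) := by
      intro n hn j
      induction j with
      | zero => exact hn
      | succ j ih =>
        refine h1 _ _ _ _ _ _ _ ?_ ?_ ih
        · nth_rewrite 2 [← zpow_one t]
          rw [hz]
          congr 1
          push_cast
          ring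
        · rw [hz]
          congr 1
          push_cast
          ring
    induction n with
    | zero =>
      refine step 0 ?_
      obtain ⟨i, x, hi, hx, hR⟩ := h0
      subst hi
      have hx' : x = t ^ (-(0 + 1 : ℕ) : ℤ) := by
        rw [eq_inv_of_mul_eq_one_left hx]
        simp
      rw [← hx']
      convert hR using 1
      · simp
      · simp
      · simp
      · simp [SL]
    | succ n ih =>
      refine step (n + 1) ?_
      have h4 := h2 _ _ (t ^ (-(n + 2 : ℕ) : ℤ)) _ _ 1 (SL (n + 2)) ?_ ?_ rfl (ih (n + 2))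
      · convert h4 using 1
        · rw [Nat.factorial_succ (n + 1)]
        · simp
        · simp
      · have e1 : (-(n + 2 : ℕ) : ℤ) + 1 = (-(n + 1 : ℕ) : ℤ) := by push_cast; ring
        nth_rewrite 2 [← zpow_one t]
        rw [hz, e1]
      · simp only [SL]
        rw [Finset.sum_range_succ _ (n + 1), Nat.factorial_succ (n + 1)]
  have hcoe : ∀ k : ℤ, ((t ^ k : L) : LaurentSeries (ZMod p)) = T p k := by
    intro k
    rw [← T_zpow]
    exact map_zpow₀ L.subtype t k
  have hSL : ∀ n, ((SL n : L) : LaurentSeries (ZMod p)) = S p n := by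
    intro n
    have h4 := map_sum L.subtype (fun k : ℕ => t ^ (((k + 1).factorial : ℕ) : ℤ)) (Finset.range n)
    refine h4.trans (Finset.sum_congr rfl fun k _ => ?_)
    exact hcoe _
  refine eq_fac fun n => ?_
  obtain ⟨o, q, ho, hq, hc⟩ := h3 _ _ (t ^ (-(n + 2 : ℕ) : ℤ)) _ _ 0 0 (by
    nth_rewrite 2 [← zpow_one t]
    rw [hz]) (by
    have h4 := hA n (n + 2)
    have h5 : (-(n + 2 : ℕ) : ℤ) + 1 = (-(n + 1 : ℕ) : ℤ) := by push_cast; ring
    rw [h5]
    exact h4)
  have ho' : (o : LaurentSeries (ZMod p)) ∈ ValRing p := by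
    obtain ⟨y, hy⟩ := ho
    refine (ot_iff _).1 ⟨y, ?_⟩
    have h5 := congrArg (Subtype.val : L → LaurentSeries (ZMod p)) hy
    simpa using h5
  refine ⟨o, ho', ?_⟩
  rw [← hc, ← hq, Nat.factorial_succ (n + 1), ← hcoe, ← hSL]
  rfl

end Pool.Agent.Helper38.EQ
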